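import Mathlib
import Pool.Agent.Lib.MP_1d41ea_nt.H68Mult

set_option autoImplicit false

namespace Pool.Agent.Results.MP_1d41ea_nt.LengthSets

/-- In every base `b ≥ 2`, for every finitely supported `f ≠ 0` with `f 0 = f 1 = 0` there is `n`
with last digit `b - 1` that has, for every `k`, exactly `f k` factorisations (up to order) into
`k` lunar primes `p 0, …, p (k-1)`; `s j` is the lunar product of the first `j` of them. -/
theorem result :
    ∀ b : ℕ, 2 ≤ b → ∀ f : Finsupp ℕ ℕ, f ≠ 0 → f 0 = 0 → f 1 = 0 →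
      ∃ n : ℕ, n % b = b - 1 ∧ ∀ k : ℕ,
        ({P : Multiset ℕ | ∃ p s : ℕ → ℕ, P = (Multiset.range k).map p ∧
          s 0 = b - 1 ∧ s k = n ∧ ∀ j < k,
            (p j ≠ b - 1 ∧ ∀ a c : ℕ,
              (∀ m : ℕ, p j / b ^ m % b =
                (Finset.range (m + 1)).sup
                  (fun i => min (a / b ^ i % b) (c / b ^ (m - i) % b))) →
              a = b - 1 ∨ c = b - 1) ∧
            ∀ m : ℕ, s (j + 1) / b ^ m % b =
              (Finset.range (m + 1)).sup
                (fun i => min (s j / b ^ i % b) (p j / b ^ (m - i) % b))} :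
          Set (Multiset ℕ)).encard = (f k : ℕ∞) :=
  fun b hb f hf h0 h1 => Pool.Agent.Lib.MP_1d41ea_nt.H68.lunar_mult b hb f hf h0 h1

end Pool.Agent.Results.MP_1d41ea_nt.LengthSets
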