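import Pool.Agent.Lib.MP_1d41ea_nt.H84Unif

set_option autoImplicit false

namespace Pool.Agent.Results.MP_1d41ea_nt.PerturbedPowers

/-- Every sumset is far from the `k`-th powers, uniformly in the summands: if `B` and `C` have two
elements up to `y ≤ X`, then the non-powers up to `X + y` in `B + C` and the powers up to `X` outside
`B + C` number at least `(1 - ε) X^(1/k)`. -/
theorem result :
    ∀ k : ℕ, 2 ≤ k → ∀ ε : ℝ, 0 < ε → ∃ X₀ : ℕ, ∀ X : ℕ, X₀ ≤ X → ∀ y : ℕ, y ≤ X →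
      ∀ B C : Set ℕ, (B ∩ Set.Iic y).Nontrivial → (C ∩ Set.Iic y).Nontrivial →
        (1 - ε) * (X : ℝ) ^ (k : ℝ)⁻¹ ≤
          (({n : ℕ | n ≤ X + y ∧ (∃ b ∈ B, ∃ c ∈ C, b + c = n) ∧ ¬ ∃ m : ℕ, m ^ k = n} :
            Set ℕ).ncard : ℝ) +
          (({n : ℕ | n ≤ X ∧ (∃ m : ℕ, m ^ k = n) ∧ ¬ ∃ b ∈ B, ∃ c ∈ C, b + c = n} :
            Set ℕ).ncard : ℝ) :=
  fun _ hk _ hε => Pool.Agent.Lib.MP_1d41ea_nt.H84.uniform hk hε

end Pool.Agent.Results.MP_1d41ea_nt.PerturbedPowers
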