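import Mathlib
import Pool.Agent.Lib.MP_1d41ea_nt.LGe
import Pool.Agent.Lib.MP_1d41ea_nt.Assemble

set_option autoImplicit false

namespace Pool.Agent.Results.MP_1d41ea_nt.SecondTermAllBases

open Filter

/-- For every base `b ≥ 2` the number of `k`-digit lunar primes is
`(b-1)^2 b^(k-2) - (C + o(1)) lam^k`, where `lam (lam-1) (lam-b+1) = b-1`. -/
theorem result :
    ∀ b : ℕ, 2 ≤ b → ∃ lam : ℝ, (b : ℝ) - 1 < lam ∧ lam < b ∧
      lam * (lam - 1) * (lam - (b - 1)) = b - 1 ∧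
      Tendsto
        (fun k : ℕ =>
          (((b : ℝ) - 1) ^ 2 * (b : ℝ) ^ ((k : ℤ) - 2) -
            (({n : ℕ | b ^ (k - 1) ≤ n ∧ n < b ^ k ∧ n ≠ b - 1 ∧
              ∀ a c : ℕ,
                (∀ m : ℕ, n / b ^ m % b =
                  (Finset.range (m + 1)).sup
                    (fun i => min (a / b ^ i % b) (c / b ^ (m - i) % b))) →
                a = b - 1 ∨ c = b - 1} : Set ℕ).ncard : ℝ)) / lam ^ k)
        atTop
        (nhds (min 2 ((b : ℝ) - 1) * (lam - 1) ^ 2 * (lam ^ 2 + (b - 1)) /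
          ((b - 1) * lam ^ 2 * (lam ^ 2 - 2 * lam + 2)))) := by
  intro b hb
  rcases hb.eq_or_lt with rfl | hb3
  · obtain ⟨lam, h1, h2, h3, h4⟩ := Pool.Agent.Lib.MP_1d41ea_nt.second_order
    have e : ((2 : ℕ) : ℝ) - 1 = 1 := by norm_num
    refine ⟨lam, by rw [e]; linarith, by push_cast; linarith, by rw [e]; linarith, ?_⟩
    have hl : 0 < lam := by linarith
    have hq : 0 < lam ^ 2 - 2 * lam + 2 := by nlinarith [sq_nonneg (lam - 1)]
    have e2 : min 2 (((2 : ℕ) : ℝ) - 1) * (lam - 1) ^ 2 * (lam ^ 2 + (((2 : ℕ) : ℝ) - 1)) /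
        ((((2 : ℕ) : ℝ) - 1) * lam ^ 2 * (lam ^ 2 - 2 * lam + 2)) =
        (lam ^ 2 + 1) / (lam ^ 2 * (lam + 1)) := by
      rw [e, min_eq_right (by norm_num : (1 : ℝ) ≤ 2), div_eq_div_iff (by positivity) (by positivity)]
      linear_combination (lam ^ 2 + 1) * lam ^ 2 * h3
    rw [e2, e]
    simpa using h4
  · obtain ⟨lam, h1, h2, h3, h4⟩ := Pool.Agent.Lib.MP_1d41ea_nt.L.second_term_ge_three b hb3
    have hb' : (3 : ℝ) ≤ b := by exact_mod_cast hb3
    refine ⟨lam, h1, h2, h3, ?_⟩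
    rw [min_eq_left (by linarith : (2 : ℝ) ≤ (b : ℝ) - 1)]
    exact h4

end Pool.Agent.Results.MP_1d41ea_nt.SecondTermAllBases
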