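import Mathlib
import Pool.Agent.Lib.MP_1d41ea_nt.S59Main

set_option autoImplicit false

namespace Pool.Agent.Results.MP_1d41ea_nt.ShortIntervals

open Filter

/-- In every base `b ≥ 2`, the intervals of length `y k` that start at a `k`-digit number contain
`((b-1)/b + o(1)) * y k` lunar primes, uniformly in the starting point, if and only if
`(y k)^2 * k / b^k` tends to infinity. -/
theorem result :
    ∀ b : ℕ, 2 ≤ b → ∀ y : ℕ → ℕ, (∀ k, 1 ≤ y k) →
      ((∀ ε : ℝ, 0 < ε → ∀ᶠ k in atTop, ∀ x : ℕ, b ^ (k - 1) ≤ x → x < b ^ k →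
          |(({n : ℕ | x ≤ n ∧ n < x + y k ∧ n ≠ b - 1 ∧
              ∀ a c : ℕ,
                (∀ m : ℕ, n / b ^ m % b =
                  (Finset.range (m + 1)).sup
                    (fun i => min (a / b ^ i % b) (c / b ^ (m - i) % b))) →
                a = b - 1 ∨ c = b - 1} : Set ℕ).ncard : ℝ) - ((b : ℝ) - 1) / b * y k| ≤
            ε * y k) ↔
        Tendsto (fun k : ℕ => (y k : ℝ) ^ 2 * k / (b : ℝ) ^ k) atTop atTop) := by
  intro b hb y hy
  rw [← Pool.Agent.Lib.MP_1d41ea_nt.S59.main hb y hy]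
  have h : ∀ x z : ℕ, ({n : ℕ | x ≤ n ∧ n < x + z ∧ Pool.Agent.Lib.MP_1d41ea_nt.S59.Pm b n} :
      Set ℕ).ncard = Pool.Agent.Lib.MP_1d41ea_nt.S59.cP b x z := fun x z => by
    rw [Pool.Agent.Lib.MP_1d41ea_nt.S59.cP, ← Set.ncard_coe_finset]
    congr 1
    ext n
    simp [and_assoc]
  simp only [← h]
  rfl

end Pool.Agent.Results.MP_1d41ea_nt.ShortIntervals
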